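import Mathlib
import Pool.Agent.R544.PQ.Cnt

/-! Few members of a family avoid an interval. -/

set_option autoImplicit false

open Finset
open scoped Classical

namespace Pool.Agent.Run7.h566.PQ

open Pool.Agent.R544.PQ (W bad mem_bad card_bad)

/-- the value at the time `t` -/
noncomputable def fv (p q : ℕ) (z : ℝ) (t : ℕ) : ℝ := Int.fract (z * ((p : ℝ) / q) ^ t)

/-- the members of a family which avoid an interval are counted by bad residues -/
lemma few {ι : Type} (p q : ℕ) (hq : 2 ≤ q) (hqp : q < p) (hco : Nat.Coprime p q) (h K : ℕ)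
    (a : ℝ) (ha : 0 ≤ a) (ha1 : a + 2 / (q : ℝ) ^ h ≤ 1) (S : Finset ι) (z : ι → ℝ) (U : ℝ) (hU : 0 ≤ U)
    (hyp : ∀ t0 : ℕ, ∃ t, t0 ≤ t ∧ ∀ v : ℕ, v < q ^ (K * h) * p ^ (K * h) →
      ((S.filter fun i => ⌊fv p q (z i / (q : ℝ) ^ (K * h)) t * ((q ^ (K * h) * p ^ (K * h) : ℕ) : ℝ)⌋₊ = v).card : ℝ) ≤ U) :
    ((S.filter fun i => {t : ℕ | a ≤ fv p q (z i) t ∧ fv p q (z i) t < a + 2 / (q : ℝ) ^ h}.Finite).card : ℝ) ≤
      (p : ℝ) ^ (K * h) * ((q : ℝ) ^ h - 1) ^ K * U := by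
  have hp : 0 < p := by omega
  have hq0 : 0 < q := by omega
  have hqR : (0 : ℝ) < q := by exact_mod_cast hq0
  have hpR : (0 : ℝ) < p := by exact_mod_cast hp
  set T := K * h with hT
  set E : Finset ι := S.filter fun i => {t : ℕ | a ≤ fv p q (z i) t ∧
    fv p q (z i) t < a + 2 / (q : ℝ) ^ h}.Finite with hE
  -- a time after which the interval is avoided
  obtain ⟨t0, ht0⟩ : ∃ t0, ∀ i ∈ E, ∀ t, t0 ≤ t →
      ¬ (a ≤ fv p q (z i) t ∧ fv p q (z i) t < a + 2 / (q : ℝ) ^ h) := by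
    have h1 : ∀ i : ι, ∃ B, i ∈ E → ∀ t, B ≤ t →
        ¬ (a ≤ fv p q (z i) t ∧ fv p q (z i) t < a + 2 / (q : ℝ) ^ h) := by
      intro i
      by_cases hi : i ∈ E
      · have hi2 := hi
        rw [hE, mem_filter] at hi2
        obtain ⟨B, hB⟩ := hi2.2.bddAbove
        refine ⟨B + 1, fun _ t ht hs => ?_⟩
        have := hB hs
        omega
      · exact ⟨0, fun h => absurd h hi⟩
    choose B hB using h1
    exact ⟨E.sup B, fun i hi t ht => hB i hi t ((le_sup hi).trans ht)⟩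
  obtain ⟨t, ht, hcell⟩ := hyp t0
  set N : ℕ := q ^ T * p ^ T with hN
  have hN0 : 0 < N := by positivity
  have hNR : (0 : ℝ) < N := by exact_mod_cast hN0
  set u : ι → ℕ := fun i => ⌊fv p q (z i / (q : ℝ) ^ T) t * N⌋₊ with hu
  have hmaps : ∀ i ∈ E, u i ∈ bad p q h T a K := by
    intro i hi
    rw [mem_bad]
    have hf0 : 0 ≤ fv p q (z i / (q : ℝ) ^ T) t := Int.fract_nonneg _
    have hf1 : fv p q (z i / (q : ℝ) ^ T) t < 1 := Int.fract_lt_one _
    have hfl1 : ((u i : ℕ) : ℝ) ≤ fv p q (z i / (q : ℝ) ^ T) t * N := Nat.floor_le (by positivity)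
    have hfl2 : fv p q (z i / (q : ℝ) ^ T) t * N < (u i : ℕ) + 1 := Nat.lt_floor_add_one _
    refine ⟨?_, fun j hj1 hjK hcon => ?_⟩
    · have : ((u i : ℕ) : ℝ) < N := by nlinarith
      exact_mod_cast this
    · -- a hit at the time `t + j h`
      have hjh : j * h ≤ T := Nat.mul_le_mul_right _ hjK
      set w := W p q h T j with hw
      have hw0 : 0 < w := by
        rw [hw]
        unfold W
        positivity
      have hwR : (0 : ℝ) < w := by exact_mod_cast hw0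
      have hwq : (q : ℝ) ^ h ≤ w := by
        have : q ^ h ≤ w := by
          rw [hw]
          unfold W
          calc q ^ h ≤ q ^ (j * h) := Nat.pow_le_pow_right hq0 (Nat.le_mul_of_pos_left h hj1)
            _ ≤ q ^ (j * h) * p ^ (T - j * h) := Nat.le_mul_of_pos_right _ (by positivity)
        exact_mod_cast this
      set G : ℕ := q ^ (T - j * h) * p ^ (j * h) with hG
      have hGw : G * w = N := by
        rw [hG, hw, hN]
        unfold W
        calc q ^ (T - j * h) * p ^ (j * h) * (q ^ (j * h) * p ^ (T - j * h))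
            = (q ^ (T - j * h) * q ^ (j * h)) * (p ^ (j * h) * p ^ (T - j * h)) := by ring
          _ = q ^ T * p ^ T := by
            rw [← pow_add, ← pow_add, Nat.sub_add_cancel hjh, Nat.add_sub_cancel' hjh]
      have hGwR : (G : ℝ) * w = N := by exact_mod_cast hGw
      -- the value at the time `t + j h`
      have hval : z i * ((p : ℝ) / q) ^ (t + j * h) = (z i / (q : ℝ) ^ T * ((p : ℝ) / q) ^ t) * G := by
        rw [hG, pow_add, div_pow (p : ℝ) q (j * h)]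
        push_cast
        have : (q : ℝ) ^ T = (q : ℝ) ^ (T - j * h) * (q : ℝ) ^ (j * h) := by
          rw [← pow_add, Nat.sub_add_cancel hjh]
        rw [this]
        field_simp
      have hfr : fv p q (z i) (t + j * h) =
          (((u i % w : ℕ) : ℝ) + (fv p q (z i / (q : ℝ) ^ T) t * N - u i)) / w := by
        unfold fv
        rw [Int.fract_eq_iff]
        have hlt : ((u i % w : ℕ) : ℝ) + 1 ≤ w := by
          have : u i % w + 1 ≤ w := Nat.mod_lt _ hw0
          exact_mod_cast this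
        have h2 : ((u i : ℕ) : ℝ) = w * ((u i / w : ℕ) : ℝ) + ((u i % w : ℕ) : ℝ) := by
          exact_mod_cast (Nat.div_add_mod (u i) w).symm
        unfold fv at hfl1 hfl2
        generalize u i / w = k at h2
        generalize u i % w = r' at h2 hlt
        refine ⟨by
          apply div_nonneg _ hwR.le
          have : (0 : ℝ) ≤ (r' : ℝ) := by positivity
          linarith, by
          rw [div_lt_one hwR]
          linarith, ⌊z i / (q : ℝ) ^ T * ((p : ℝ) / q) ^ t⌋ * G + k, ?_⟩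
        have h3 : z i / (q : ℝ) ^ T * ((p : ℝ) / q) ^ t = ⌊z i / (q : ℝ) ^ T * ((p : ℝ) / q) ^ t⌋ +
            Int.fract (z i / (q : ℝ) ^ T * ((p : ℝ) / q) ^ t) := (Int.floor_add_fract _).symm
        rw [hval]
        push_cast
        rw [sub_eq_iff_eq_add, ← hGwR]
        have h5 : (z i / (q : ℝ) ^ T * ((p : ℝ) / q) ^ t) * G =
            ⌊z i / (q : ℝ) ^ T * ((p : ℝ) / q) ^ t⌋ * G +
              Int.fract (z i / (q : ℝ) ^ T * ((p : ℝ) / q) ^ t) * G := by
          conv_lhs => rw [h3]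
          ring
        rw [h5]
        field_simp
        rw [h2]
        ring
      have hlo : a ≤ fv p q (z i) (t + j * h) := by
        rw [hfr]
        refine hcon.1.trans ?_
        apply div_le_div_of_nonneg_right _ hwR.le
        linarith
      have hhi : fv p q (z i) (t + j * h) < a + 2 / (q : ℝ) ^ h := by
        rw [hfr, add_div]
        have h3 : (fv p q (z i / (q : ℝ) ^ T) t * N - (u i : ℕ)) / w ≤ 1 / (q : ℝ) ^ h := by
          have h4 : (fv p q (z i / (q : ℝ) ^ T) t * N - (u i : ℕ)) / w ≤ 1 / w :=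
            div_le_div_of_nonneg_right (by linarith) hwR.le
          exact h4.trans (one_div_le_one_div_of_le (by positivity) hwq)
        have h4 := hcon.2
        have h5 : (2 : ℝ) / (q : ℝ) ^ h = 1 / (q : ℝ) ^ h + 1 / (q : ℝ) ^ h := by ring
        rw [h5]
        linarith
      exact ht0 i hi (t + j * h) (by omega) ⟨hlo, hhi⟩
  have hsub : E ⊆ (bad p q h T a K).biUnion fun v => S.filter fun i => u i = v := by
    intro i hi
    rw [mem_biUnion]
    refine ⟨u i, hmaps i hi, ?_⟩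
    rw [mem_filter]
    refine ⟨?_, rfl⟩
    rw [hE, mem_filter] at hi
    exact hi.1
  have h1 : ((E.card : ℕ) : ℝ) ≤ ∑ v ∈ bad p q h T a K, ((S.filter fun i => u i = v).card : ℝ) := by
    exact_mod_cast (card_le_card hsub).trans card_biUnion_le
  refine h1.trans ?_
  have h2 : ∑ v ∈ bad p q h T a K, ((S.filter fun i => u i = v).card : ℝ) ≤
      ((bad p q h T a K).card : ℝ) * U := by
    rw [← nsmul_eq_mul]
    exact sum_le_card_nsmul _ _ _ fun v hv => hcell v (mem_bad.1 hv).1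
  refine h2.trans (mul_le_mul_of_nonneg_right ?_ hU)
  have ha1' : a + 1 / (q : ℝ) ^ h ≤ 1 := by
    have h5 : (2 : ℝ) / (q : ℝ) ^ h = 1 / (q : ℝ) ^ h + 1 / (q : ℝ) ^ h := by ring
    have : 0 < 1 / (q : ℝ) ^ h := by positivity
    linarith
  have h3 := card_bad p q h T hq hp hco a ha ha1' K le_rfl
  have h4 : ((bad p q h T a K).card : ℝ) ≤ ((p ^ T * (q ^ h - 1) ^ K : ℕ) : ℝ) := by exact_mod_cast h3
  refine h4.trans (le_of_eq ?_)
  have h5 : 1 ≤ q ^ h := Nat.one_le_pow _ _ (by omega)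
  push_cast [Nat.cast_sub h5]
  ring

/-- the number of steps -/
lemma numbers (p q : ℕ) (hq : 2 ≤ q) (hqp : q < p) (h : ℕ) (hh : 1 ≤ h) (κ : ℝ) (hκ : 0 < κ) :
    ∃ c C : ℝ, 0 < c ∧ 0 < C ∧ ∀ M : ℕ, 1 ≤ M → ∃ K : ℕ, ∀ D : ℝ, 0 ≤ D →
      (p : ℝ) ^ (K * h) * ((q : ℝ) ^ h - 1) ^ K * (1 / ((q : ℝ) ^ (K * h) * (p : ℝ) ^ (K * h)) + D * (M : ℝ) ^ (-κ)) ≤
        C * (1 + D) * (M : ℝ) ^ (-c) := by
  have hqR : (2 : ℝ) ≤ q := by exact_mod_cast hq
  have hpR : (q : ℝ) < p := by exact_mod_cast hqp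
  have hq0 : (0 : ℝ) < q := by linarith
  have hp0 : (0 : ℝ) < p := by linarith
  set β : ℝ := (q : ℝ) ^ h with hβ
  have hβ2 : 2 ≤ β := by
    calc (2 : ℝ) ≤ q := hqR
      _ = (q : ℝ) ^ 1 := (pow_one _).symm
      _ ≤ (q : ℝ) ^ h := pow_le_pow_right₀ (by linarith) hh
  have hβ0 : 0 < β := by linarith
  set Λ : ℝ := ((p : ℝ) * q) ^ h with hΛ
  have hpq : (1 : ℝ) < (p : ℝ) * q := by nlinarith
  have hΛ1 : 1 < Λ := one_lt_pow₀ hpq (by omega)
  have hlΛ : 0 < Real.log Λ := Real.log_pos hΛ1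
  set c : ℝ := min (κ / 2) (κ / (2 * β * Real.log Λ)) with hc
  have hc0 : 0 < c := lt_min (by positivity) (by positivity)
  refine ⟨c, 3, hc0, by positivity, fun M hM => ?_⟩
  have hMR : (1 : ℝ) ≤ M := by exact_mod_cast hM
  have hM0 : (0 : ℝ) < M := by linarith
  have hlM : 0 ≤ Real.log M := Real.log_nonneg hMR
  set z : ℝ := κ * Real.log M / (2 * Real.log Λ) with hz
  have hz0 : 0 ≤ z := by positivity
  refine ⟨⌊z⌋₊, fun D hD => ?_⟩
  set l := ⌊z⌋₊ with hl
  have hl1 : (l : ℝ) ≤ z := Nat.floor_le hz0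
  have hl2 : z < l + 1 := Nat.lt_floor_add_one z
  have hkl : (q : ℝ) ^ (l * h) = β ^ l := by rw [hβ, ← pow_mul, mul_comm]
  have hΛl : (q : ℝ) ^ (l * h) * (p : ℝ) ^ (l * h) = Λ ^ l := by
    rw [hΛ, ← mul_pow, ← pow_mul, mul_comm h l, mul_comm (q : ℝ)]
  have hpl : (p : ℝ) ^ (l * h) * β ^ l = Λ ^ l := by rw [← hkl, ← hΛl]; ring
  rw [hΛl]
  -- the length
  have h1 : Λ ^ l ≤ (M : ℝ) ^ (κ / 2) := by
    have h2 : Λ ^ l = Real.exp (l * Real.log Λ) := by
      rw [Real.exp_nat_mul, Real.exp_log (by linarith)]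
    have h3 : (M : ℝ) ^ (κ / 2) = Real.exp (Real.log M * (κ / 2)) := Real.rpow_def_of_pos hM0 _
    rw [h2, h3, Real.exp_le_exp]
    calc (l : ℝ) * Real.log Λ ≤ z * Real.log Λ := by gcongr
      _ = Real.log M * (κ / 2) := by rw [hz]; field_simp
  -- the share of the bad residues
  have h2 : (p : ℝ) ^ (l * h) * (β - 1) ^ l * (1 / Λ ^ l) ≤ 3 * (M : ℝ) ^ (-c) := by
    have e1 : (p : ℝ) ^ (l * h) * (β - 1) ^ l * (1 / Λ ^ l) = (1 - 1 / β) ^ l := by
      rw [← hpl]
      have hpl0 : (p : ℝ) ^ (l * h) ≠ 0 := by positivity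
      have : (1 - 1 / β) ^ l = (β - 1) ^ l / β ^ l := by
        rw [← div_pow]
        congr 1
        field_simp
      rw [this]
      field_simp
    have e2 : (1 - 1 / β) ^ l ≤ Real.exp (-(l / β)) := by
      have : 1 - 1 / β ≤ Real.exp (-(1 / β)) := by
        have := Real.add_one_le_exp (-(1 / β))
        linarith
      calc (1 - 1 / β) ^ l ≤ (Real.exp (-(1 / β))) ^ l := by
            apply pow_le_pow_left₀ _ this
            rw [sub_nonneg, div_le_one hβ0]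
            linarith
        _ = Real.exp (-(l / β)) := by
            rw [← Real.exp_nat_mul]
            congr 1
            ring
    have e3 : Real.exp (-(l / β)) ≤ Real.exp 1 * (M : ℝ) ^ (-c) := by
      rw [Real.rpow_def_of_pos hM0, ← Real.exp_add, Real.exp_le_exp]
      have h3 : c ≤ κ / (2 * β * Real.log Λ) := min_le_right _ _
      have h4 : c * Real.log M ≤ z / β := by
        calc c * Real.log M ≤ κ / (2 * β * Real.log Λ) * Real.log M := by gcongr
          _ = z / β := by rw [hz]; field_simp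
      have h5 : z / β ≤ (l + 1) / β := by gcongr
      have h6 : ((l : ℝ) + 1) / β = l / β + 1 / β := by ring
      have h7 : 1 / β ≤ 1 := by rw [div_le_one hβ0]; linarith
      nlinarith
    have e4 : Real.exp 1 < 3 := lt_trans Real.exp_one_lt_d9 (by norm_num)
    rw [e1]
    refine e2.trans (e3.trans ?_)
    gcongr
  have h3 : (p : ℝ) ^ (l * h) * (β - 1) ^ l * (D * (M : ℝ) ^ (-κ)) ≤ D * (M : ℝ) ^ (-c) := by
    have e1 : (p : ℝ) ^ (l * h) * (β - 1) ^ l ≤ Λ ^ l := by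
      rw [← hpl]
      apply mul_le_mul_of_nonneg_left _ (by positivity)
      exact pow_le_pow_left₀ (by linarith) (by linarith) l
    have e2 : (M : ℝ) ^ (κ / 2) * (M : ℝ) ^ (-κ) ≤ (M : ℝ) ^ (-c) := by
      rw [← Real.rpow_add hM0]
      apply Real.rpow_le_rpow_of_exponent_le hMR
      have : c ≤ κ / 2 := min_le_left _ _
      linarith
    calc (p : ℝ) ^ (l * h) * (β - 1) ^ l * (D * (M : ℝ) ^ (-κ))
        ≤ (M : ℝ) ^ (κ / 2) * (D * (M : ℝ) ^ (-κ)) := by
          gcongr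
          exact e1.trans h1
      _ = D * ((M : ℝ) ^ (κ / 2) * (M : ℝ) ^ (-κ)) := by ring
      _ ≤ D * (M : ℝ) ^ (-c) := by gcongr
  have hMc : 0 < (M : ℝ) ^ (-c) := by positivity
  calc (p : ℝ) ^ (l * h) * (β - 1) ^ l * (1 / Λ ^ l + D * (M : ℝ) ^ (-κ))
      = (p : ℝ) ^ (l * h) * (β - 1) ^ l * (1 / Λ ^ l) +
        (p : ℝ) ^ (l * h) * (β - 1) ^ l * (D * (M : ℝ) ^ (-κ)) := by ring
    _ ≤ 3 * (M : ℝ) ^ (-c) + D * (M : ℝ) ^ (-c) := add_le_add h2 h3
    _ ≤ 3 * (1 + D) * (M : ℝ) ^ (-c) := by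
        have : 0 ≤ D * (M : ℝ) ^ (-c) := by positivity
        nlinarith

/-- **Few members of a well distributed family avoid an interval.** -/
theorem few_all (p q : ℕ) (hq : 2 ≤ q) (hqp : q < p) (hco : Nat.Coprime p q) (h : ℕ) (hh : 1 ≤ h)
    (κ : ℝ) (hκ : 0 < κ) :
    ∃ c C : ℝ, 0 < c ∧ 0 < C ∧ ∀ (ι : Type) (M : ℕ), 1 ≤ M → ∀ (S : Finset ι) (z : ι → ℝ) (P D : ℝ),
      0 ≤ P → 0 ≤ D →
      (∀ T t0 : ℕ, ∃ t, t0 ≤ t ∧ ∀ a b : ℝ, 0 ≤ a → a < b → b ≤ 1 →
        ((S.filter fun i => a ≤ fv p q (z i / (q : ℝ) ^ T) t ∧ fv p q (z i / (q : ℝ) ^ T) t < b).card : ℝ) ≤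
          P * ((b - a) + D * (M : ℝ) ^ (-κ))) →
      ∀ a : ℝ, 0 ≤ a → a + 2 / (q : ℝ) ^ h ≤ 1 →
      ((S.filter fun i => {t : ℕ | a ≤ fv p q (z i) t ∧ fv p q (z i) t < a + 2 / (q : ℝ) ^ h}.Finite).card : ℝ) ≤
        C * (1 + D) * (M : ℝ) ^ (-c) * P := by
  obtain ⟨c, C, hc, hC, hnum⟩ := numbers p q hq hqp h hh κ hκ
  refine ⟨c, C, hc, hC, fun ι M hM S z P D hP hD hyp a ha ha1 => ?_⟩
  obtain ⟨K, hK⟩ := hnum M hM
  have hMR : (1 : ℝ) ≤ M := by exact_mod_cast hM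
  have hM0 : (0 : ℝ) < M := by linarith
  have hq0 : 0 < q := by omega
  have hp0 : 0 < p := by omega
  have hqR : (0 : ℝ) < q := by exact_mod_cast hq0
  have hpR : (0 : ℝ) < p := by exact_mod_cast hp0
  set N : ℕ := q ^ (K * h) * p ^ (K * h) with hN
  have hN0 : 0 < N := by positivity
  have hNR : (0 : ℝ) < N := by exact_mod_cast hN0
  have h1 := few p q hq hqp hco h K a ha ha1 S z
    (P * (1 / ((q : ℝ) ^ (K * h) * (p : ℝ) ^ (K * h)) + D * (M : ℝ) ^ (-κ))) (by positivity) (by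
      intro t0
      obtain ⟨t, ht, htt⟩ := hyp (K * h) t0
      refine ⟨t, ht, fun v hv => ?_⟩
      have hvR : (v : ℝ) + 1 ≤ N := by exact_mod_cast hv
      have h2 := htt ((v : ℝ) / N) (((v : ℝ) + 1) / N) (by positivity) (by
        apply div_lt_div_of_pos_right _ hNR
        linarith) (by rw [div_le_one hNR]; exact hvR)
      have h3 : ((v : ℝ) + 1) / N - (v : ℝ) / N = 1 / ((q : ℝ) ^ (K * h) * (p : ℝ) ^ (K * h)) := by
        rw [← sub_div, hN]
        push_cast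
        ring
      rw [h3] at h2
      refine le_trans (Nat.cast_le.2 (card_le_card fun i hi => ?_)) h2
      rw [mem_filter] at hi ⊢
      refine ⟨hi.1, ?_⟩
      have hf0 : 0 ≤ fv p q (z i / (q : ℝ) ^ (K * h)) t := Int.fract_nonneg _
      have h4 := hi.2
      rw [Nat.floor_eq_iff (by positivity)] at h4
      constructor
      · rw [div_le_iff₀ hNR]
        exact h4.1
      · rw [lt_div_iff₀ hNR]
        exact h4.2)
  refine h1.trans ?_
  have h2 := hK D hD
  calc (p : ℝ) ^ (K * h) * ((q : ℝ) ^ h - 1) ^ K *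
      (P * (1 / ((q : ℝ) ^ (K * h) * (p : ℝ) ^ (K * h)) + D * (M : ℝ) ^ (-κ)))
      = ((p : ℝ) ^ (K * h) * ((q : ℝ) ^ h - 1) ^ K *
        (1 / ((q : ℝ) ^ (K * h) * (p : ℝ) ^ (K * h)) + D * (M : ℝ) ^ (-κ))) * P := by ring
    _ ≤ C * (1 + D) * (M : ℝ) ^ (-c) * P := mul_le_mul_of_nonneg_right h2 hP

end Pool.Agent.Run7.h566.PQ
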