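import Mathlib
import Pool.Agent.Run7.h566.BL.Place
import Pool.Agent.R544.PQ.Good

/-! Well distributed bilinear families `m n ξ (p/q)^t + x_m + y_n`. -/

set_option autoImplicit false

open Finset

namespace Pool.Agent.Run7.h566.PQ

open Pool.Agent.H469R2.NK (e norm_e e_add e_zero conj_e)
open Pool.Agent.Run7.h566.BL (bil disc_fam)

/-- the number of frequencies -/
noncomputable def fr (κ : ℝ) (M : ℕ) : ℕ := ⌈(M : ℝ) ^ κ⌉₊

/-- **Bilinear families at a well spaced point.** -/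
theorem at_good (c : ℝ) (hc : 1 ≤ c) (δ : ℝ) (hδ : 0 < δ) (hδ1 : δ ≤ 1) :
    ∃ C : ℝ, 0 < C ∧ ∀ M : ℕ, 1 ≤ M → ∀ γ : ℝ,
      (∀ r : ℕ, 0 < r → r < fr (δ / 8) M * M → ∀ z : ℤ,
        1 / (c * ((fr (δ / 8) M * M : ℕ) : ℝ)) ≤ |(r : ℝ) * γ - z|) →
      ∀ A B : Finset ℕ, A ⊆ range M → B ⊆ range M →
      (M : ℝ) ^ (1 + δ) ≤ (A.card : ℝ) * B.card → ∀ x y : ℕ → ℝ, ∀ s t : ℝ, 0 ≤ s → s < t → t ≤ 1 →
      |(((A ×ˢ B).filter (fun z : ℕ × ℕ =>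
          s ≤ Int.fract ((z.1 * z.2 : ℝ) * γ + x z.1 + y z.2) ∧
          Int.fract ((z.1 * z.2 : ℝ) * γ + x z.1 + y z.2) < t)).card : ℝ) -
        (t - s) * ((A.card : ℝ) * B.card)| ≤ C * (M : ℝ) ^ (-(δ / 16)) * ((A.card : ℝ) * B.card) := by
  classical
  set c0 : ℝ := 1 + Real.log (2 * c) with hc0
  have hc00 : 1 ≤ c0 := by
    rw [hc0]
    have : 0 ≤ Real.log (2 * c : ℝ) := Real.log_nonneg (by linarith)
    linarith
  set C2 : ℝ := 1 + 16 * c * (c0 + 16 / δ) with hC2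
  have hC20 : 0 < C2 := by positivity
  set C3 : ℝ := Real.sqrt C2 with hC3
  have hC30 : 0 < C3 := Real.sqrt_pos.2 hC20
  refine ⟨2 * (4 * C3 + 2), by positivity, fun M hM γ hgood => ?_⟩
  have hMR : (1 : ℝ) ≤ M := by exact_mod_cast hM
  have hM0 : (0 : ℝ) < M := by linarith
  -- the number of frequencies
  set H : ℕ := fr (δ / 8) M with hH
  have hHl : (M : ℝ) ^ (δ / 8) ≤ H := Nat.le_ceil _
  have hM8 : (1 : ℝ) ≤ (M : ℝ) ^ (δ / 8) := Real.one_le_rpow hMR (by positivity)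
  have hHR : (1 : ℝ) ≤ H := hM8.trans hHl
  have hH1 : 1 ≤ H := by exact_mod_cast hHR
  have hHu : (H : ℝ) ≤ 2 * (M : ℝ) ^ (δ / 8) := by
    have := Nat.ceil_lt_add_one (show 0 ≤ (M : ℝ) ^ (δ / 8) by positivity)
    have h2 : (H : ℝ) < (M : ℝ) ^ (δ / 8) + 1 := this
    linarith
  intro A B hA hB hcard x y s t hs hst ht
  set P : ℝ := (A.card : ℝ) * B.card with hP
  have hP0 : 0 < P := lt_of_lt_of_le (Real.rpow_pos_of_pos hM0 _) hcard
  set η : ℝ := 1 / (c * ((H * M : ℕ) : ℝ)) with hη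
  have hHM1 : (1 : ℝ) ≤ ((H * M : ℕ) : ℝ) := by
    push_cast
    nlinarith
  have hη0 : 0 < η := by positivity
  have hinv : 1 / η = c * ((H * M : ℕ) : ℝ) := by rw [hη, one_div_one_div]
  have hη1 : η ≤ 1 := by
    rw [hη, div_le_one (by positivity)]
    nlinarith
  have hinv1 : 1 ≤ 1 / η := by rw [hinv]; nlinarith
  set E : ℝ := 2 * c * (M : ℝ) ^ (1 + δ / 8) with hE
  have hE0 : 0 < E := by positivity
  have hinvE : 1 / η ≤ E := by
    rw [hinv, hE]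
    have h1 : (M : ℝ) ^ (1 + δ / 8) = M * (M : ℝ) ^ (δ / 8) := by
      rw [Real.rpow_add hM0, Real.rpow_one]
    rw [h1]
    push_cast
    calc c * ((H : ℝ) * M) ≤ c * ((2 * (M : ℝ) ^ (δ / 8)) * M) := by gcongr
      _ = _ := by ring
  have hlogE : 1 + Real.log E ≤ (c0 + 16 / δ) * (M : ℝ) ^ (δ / 8) := by
    have h1 : Real.log E = Real.log (2 * c) + (1 + δ / 8) * Real.log M := by
      rw [hE, Real.log_mul (by positivity) (by positivity), Real.log_rpow hM0]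
    have h2 : Real.log M ≤ (M : ℝ) ^ (δ / 8) / (δ / 8) :=
      Real.log_le_rpow_div hM0.le (by positivity)
    have h3 : 0 ≤ Real.log (M : ℝ) := Real.log_nonneg hMR
    have h4 : (1 + δ / 8) * Real.log M ≤ 2 * Real.log M := by
      apply mul_le_mul_of_nonneg_right _ h3
      linarith
    have h5 : 2 * ((M : ℝ) ^ (δ / 8) / (δ / 8)) = 16 / δ * (M : ℝ) ^ (δ / 8) := by
      field_simp
      norm_num
    have h6 : c0 ≤ c0 * (M : ℝ) ^ (δ / 8) := by nlinarith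
    rw [h1]
    calc 1 + (Real.log (2 * c) + (1 + δ / 8) * Real.log M)
        = c0 + (1 + δ / 8) * Real.log M := by rw [hc0]; ring
      _ ≤ c0 + 2 * ((M : ℝ) ^ (δ / 8) / (δ / 8)) := by linarith
      _ ≤ (c0 + 16 / δ) * (M : ℝ) ^ (δ / 8) := by rw [h5]; linarith
  have hbr : (M : ℝ) + 8 * (1 / η * (1 + Real.log (1 / η))) ≤ C2 * (M : ℝ) ^ (1 + δ / 4) := by
    have h1 : Real.log (1 / η) ≤ Real.log E := Real.log_le_log (by positivity) hinvE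
    have h0 : 0 ≤ Real.log (1 / η) := Real.log_nonneg hinv1
    have h2 : 1 / η * (1 + Real.log (1 / η)) ≤ E * ((c0 + 16 / δ) * (M : ℝ) ^ (δ / 8)) := by
      apply mul_le_mul hinvE (by linarith) (by linarith) hE0.le
    have h3 : E * ((c0 + 16 / δ) * (M : ℝ) ^ (δ / 8)) =
        2 * c * (c0 + 16 / δ) * (M : ℝ) ^ (1 + δ / 4) := by
      have : (M : ℝ) ^ (1 + δ / 4) = (M : ℝ) ^ (1 + δ / 8) * (M : ℝ) ^ (δ / 8) := by
        rw [← Real.rpow_add hM0]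
        congr 1
        ring
      rw [this, hE]
      ring
    have h4 : (M : ℝ) ≤ (M : ℝ) ^ (1 + δ / 4) := by
      conv_lhs => rw [← Real.rpow_one (M : ℝ)]
      exact Real.rpow_le_rpow_of_exponent_le hMR (by linarith)
    rw [hC2]
    nlinarith
  have hS : ∀ h : ℕ, 1 ≤ h → h ≤ H →
      ‖∑ z ∈ A ×ˢ B, e (h * ((z.1 * z.2 : ℝ) * γ + x z.1 + y z.2))‖ ≤
        P * (C3 * (M : ℝ) ^ (-(3 * δ / 8))) := by
    intro h hh1 hh2
    have h1 := bil M M (H * M) h γ η hη0 hη1 hgood hh1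
      (Nat.mul_le_mul_right M hh2) A B hA hB x y
    rw [← hP] at h1
    have h3 : P * (M + 8 * (1 / η * (1 + Real.log (1 / η)))) ≤
        (P * (C3 * (M : ℝ) ^ (-(3 * δ / 8)))) ^ 2 := by
      have h4 : (P * (C3 * (M : ℝ) ^ (-(3 * δ / 8)))) ^ 2 = P * (C2 * (P * (M : ℝ) ^ (-(3 * δ / 4)))) := by
        have e1 : C3 ^ 2 = C2 := Real.sq_sqrt hC20.le
        have e2 : ((M : ℝ) ^ (-(3 * δ / 8))) ^ 2 = (M : ℝ) ^ (-(3 * δ / 4)) := by
          rw [← Real.rpow_natCast, ← Real.rpow_mul hM0.le]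
          congr 1
          push_cast
          ring
        have e4 : (P * (C3 * (M : ℝ) ^ (-(3 * δ / 8)))) ^ 2 =
            P ^ 2 * (C3 ^ 2 * ((M : ℝ) ^ (-(3 * δ / 8))) ^ 2) := by ring
        rw [e4, e1, e2]
        ring
      rw [h4]
      apply mul_le_mul_of_nonneg_left _ hP0.le
      refine hbr.trans ?_
      apply mul_le_mul_of_nonneg_left _ hC20.le
      have e3 : (M : ℝ) ^ (1 + δ / 4) = (M : ℝ) ^ (1 + δ) * (M : ℝ) ^ (-(3 * δ / 4)) := by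
        rw [← Real.rpow_add hM0]
        congr 1
        ring
      rw [e3]
      gcongr
    exact (pow_le_pow_iff_left₀ (norm_nonneg _) (by positivity) two_ne_zero).1 (h1.trans h3)
  have hcardP : (((A ×ˢ B).card : ℕ) : ℝ) = P := by
    rw [card_product]
    push_cast
    rfl
  have hd := disc_fam (A ×ˢ B) (fun z : ℕ × ℕ => (z.1 * z.2 : ℝ) * γ + x z.1 + y z.2)
    H hH1 _ hS s t hs hst ht
  rw [hcardP] at hd
  refine hd.trans ?_
  have hlogH : 1 + Real.log H ≤ 4 * (M : ℝ) ^ (δ / 16) := by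
    have h1 : Real.log H ≤ Real.log (2 * (M : ℝ) ^ (δ / 8)) :=
      Real.log_le_log (by exact_mod_cast hH1) hHu
    rw [Real.log_mul (by norm_num) (by positivity), Real.log_rpow hM0] at h1
    have h2 : Real.log M ≤ (M : ℝ) ^ (δ / 16) / (δ / 16) :=
      Real.log_le_rpow_div hM0.le (by positivity)
    have h3 : δ / 8 * Real.log M ≤ 2 * (M : ℝ) ^ (δ / 16) := by
      have h4 : δ / 8 * Real.log M ≤ δ / 8 * ((M : ℝ) ^ (δ / 16) / (δ / 16)) := by gcongr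
      have h5 : δ / 8 * ((M : ℝ) ^ (δ / 16) / (δ / 16)) = 2 * (M : ℝ) ^ (δ / 16) := by
        field_simp
        norm_num
      linarith
    have h4 := Real.log_two_lt_d9
    have h5 : (1 : ℝ) ≤ (M : ℝ) ^ (δ / 16) := Real.one_le_rpow hMR (by positivity)
    linarith
  have hsq : (M : ℝ) ^ (δ / 16) ≤ Real.sqrt H := by
    rw [show (M : ℝ) ^ (δ / 16) = Real.sqrt ((M : ℝ) ^ (δ / 8)) by
      rw [Real.sqrt_eq_rpow, ← Real.rpow_mul hM0.le]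
      congr 1
      ring]
    exact Real.sqrt_le_sqrt hHl
  have hpos16 : (0 : ℝ) < (M : ℝ) ^ (δ / 16) := by positivity
  have h1 : P * (C3 * (M : ℝ) ^ (-(3 * δ / 8))) * (1 + Real.log H) ≤
      P * (4 * C3) * (M : ℝ) ^ (-(δ / 16)) := by
    have h2 : (M : ℝ) ^ (-(3 * δ / 8)) * (M : ℝ) ^ (δ / 16) ≤ (M : ℝ) ^ (-(δ / 16)) := by
      rw [← Real.rpow_add hM0]
      apply Real.rpow_le_rpow_of_exponent_le hMR
      linarith
    calc P * (C3 * (M : ℝ) ^ (-(3 * δ / 8))) * (1 + Real.log H)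
        ≤ P * (C3 * (M : ℝ) ^ (-(3 * δ / 8))) * (4 * (M : ℝ) ^ (δ / 16)) := by gcongr
      _ = P * (4 * C3) * ((M : ℝ) ^ (-(3 * δ / 8)) * (M : ℝ) ^ (δ / 16)) := by ring
      _ ≤ P * (4 * C3) * (M : ℝ) ^ (-(δ / 16)) := by gcongr
  have h2 : P / Real.sqrt H ≤ P * (M : ℝ) ^ (-(δ / 16)) := by
    rw [Real.rpow_neg hM0.le, ← div_eq_mul_inv]
    gcongr
  calc 2 * (P * (C3 * (M : ℝ) ^ (-(3 * δ / 8))) * (1 + Real.log H) + 2 * (P / Real.sqrt H))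
      ≤ 2 * (P * (4 * C3) * (M : ℝ) ^ (-(δ / 16)) + 2 * (P * (M : ℝ) ^ (-(δ / 16)))) := by gcongr
    _ = 2 * (4 * C3 + 2) * (M : ℝ) ^ (-(δ / 16)) * P := by ring

/-- **Good times for bilinear families.** -/
theorem place (p q : ℕ) (hq : 2 ≤ q) (hqp : q < p) (hco : Nat.Coprime p q) (δ : ℝ) (hδ : 0 < δ)
    (hδ1 : δ ≤ 1) :
    ∃ C : ℝ, 0 < C ∧ ∀ ξ : ℝ, ξ ≠ 0 → ∀ M : ℕ, 1 ≤ M → ∀ t0 : ℕ, ∃ t, t0 ≤ t ∧
      ∀ A B : Finset ℕ, A ⊆ range M → B ⊆ range M →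
      (M : ℝ) ^ (1 + δ) ≤ (A.card : ℝ) * B.card → ∀ x y : ℕ → ℝ, ∀ a b : ℝ, 0 ≤ a → a < b → b ≤ 1 →
      |(((A ×ˢ B).filter (fun z : ℕ × ℕ =>
          a ≤ Int.fract (((z.1 * z.2 : ℝ) * ξ + x z.1 + y z.2) * ((p : ℝ) / q) ^ t) ∧
          Int.fract (((z.1 * z.2 : ℝ) * ξ + x z.1 + y z.2) * ((p : ℝ) / q) ^ t) < b)).card : ℝ) -
        (b - a) * ((A.card : ℝ) * B.card)| ≤ C * (M : ℝ) ^ (-(δ / 16)) * ((A.card : ℝ) * B.card) := by
  obtain ⟨C, hC, hmain⟩ := at_good ((p : ℝ) + q) (by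
    have : (2 : ℝ) ≤ q := by exact_mod_cast hq
    have : (0 : ℝ) ≤ p := by positivity
    linarith) δ hδ hδ1
  refine ⟨C, hC, fun ξ hξ M hM t0 => ?_⟩
  have hN : 1 ≤ fr (δ / 8) M * M := by
    have h1 : 1 ≤ fr (δ / 8) M := Nat.ceil_pos.2 (Real.rpow_pos_of_pos (by exact_mod_cast hM) _)
    exact Nat.mul_pos h1 hM
  obtain ⟨t, ht, hgood⟩ := Pool.Agent.R544.PQ.exists_good p q hq hqp hco ξ hξ
    (fr (δ / 8) M * M) hN t0
  refine ⟨t, ht, fun A B hA hB hcard x y a b ha hab hb => ?_⟩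
  have h1 := hmain M hM (ξ * ((p : ℝ) / q) ^ t) hgood A B hA hB hcard
    (fun m => x m * ((p : ℝ) / q) ^ t) (fun m => y m * ((p : ℝ) / q) ^ t) a b ha hab hb
  have h2 : ∀ z : ℕ × ℕ, (z.1 * z.2 : ℝ) * (ξ * ((p : ℝ) / q) ^ t) + x z.1 * ((p : ℝ) / q) ^ t +
      y z.2 * ((p : ℝ) / q) ^ t = ((z.1 * z.2 : ℝ) * ξ + x z.1 + y z.2) * ((p : ℝ) / q) ^ t := by
    intro z
    ring
  simp only [h2] at h1
  exact h1

end Pool.Agent.Run7.h566.PQ
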