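import Mathlib
import Pool.Agent.Run7.h566.ML.Place
import Pool.Agent.Run7.h566.PQ.Place

/-! Well distributed multilinear families `a_0 ⋯ a_n ξ (p/q)^t + ∑ x_j(a)`. -/

set_option autoImplicit false

open Finset
open scoped Classical

namespace Pool.Agent.Run7.h566.PQ

open Pool.Agent.H469R2.NK (e norm_e e_add e_zero conj_e)
open Pool.Agent.Run7.h566.BL (nd spaced geo disc_fam)
open Pool.Agent.Run7.h566.ML (val pts pts_sum sum_good lin cube card_cube Free G)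

/-- **Multilinear families at a well spaced point.** -/
theorem at_goodM (c : ℝ) (hc : 1 ≤ c) (n : ℕ) :
    ∃ C : ℝ, 0 < C ∧ ∀ M : ℕ, 1 ≤ M → ∀ γ : ℝ,
      (∀ r : ℕ, 0 < r → r < fr (2 * (1 / 2 ^ (n + 4))) M * M ^ n + 1 → ∀ z : ℤ,
        1 / (c * ((fr (2 * (1 / 2 ^ (n + 4))) M * M ^ n + 1 : ℕ) : ℝ)) ≤ |(r : ℝ) * γ - z|) →
      ∀ x : Fin (n + 1) → (Fin (n + 1) → ℕ) → ℝ, (∀ j, Free j (x j)) →
      ∀ Ω : Fin (n + 1) → (Fin (n + 1) → ℕ) → Prop, (∀ j, Free j (Ω j)) →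
      ∀ s t : ℝ, 0 ≤ s → s < t → t ≤ 1 →
      |(((pts M Ω).filter (fun a => s ≤ Int.fract (val γ x a) ∧
          Int.fract (val γ x a) < t)).card : ℝ) - (t - s) * (pts M Ω).card| ≤
        C * (M : ℝ) ^ (-(1 / 2 ^ (n + 4) : ℝ)) * (M : ℝ) ^ (n + 1) := by
  set κ : ℝ := 1 / 2 ^ (n + 4) with hκ
  have hκ0 : 0 < κ := by positivity
  have hκ1 : κ ≤ 1 / 16 := by
    rw [hκ]
    apply one_div_le_one_div_of_le (by norm_num)
    calc (16 : ℝ) = 2 ^ 4 := by norm_num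
      _ ≤ 2 ^ (n + 4) := pow_le_pow_right₀ (by norm_num) (by omega)
  obtain ⟨C1, hC1, hlin⟩ := lin n (1 / 4) (by norm_num)
  set c0 : ℝ := 1 + Real.log (4 * c) with hc0
  have hc00 : 1 ≤ c0 := by
    rw [hc0]
    have : 0 ≤ Real.log (4 * c : ℝ) := Real.log_nonneg (by linarith)
    linarith
  set C2 : ℝ := 4 * c * (c0 + 8 * (n + 1)) with hC2
  have hC20 : 0 < C2 := by positivity
  set C3 : ℝ := max 1 (C1 * (8 * C2 + 1)) with hC3
  have hC31 : 1 ≤ C3 := le_max_left _ _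
  have hC32 : C1 * (8 * C2 + 1) ≤ C3 := le_max_right _ _
  refine ⟨2 * (4 * C3 + 2), by positivity, fun M hM γ hgood => ?_⟩
  have hMR : (1 : ℝ) ≤ M := by exact_mod_cast hM
  have hM0 : (0 : ℝ) < M := by linarith
  -- the number of frequencies
  set H : ℕ := fr (2 * κ) M with hH
  have hHl : (M : ℝ) ^ (2 * κ) ≤ H := Nat.le_ceil _
  have hM8 : (1 : ℝ) ≤ (M : ℝ) ^ (2 * κ) := Real.one_le_rpow hMR (by positivity)
  have hHR : (1 : ℝ) ≤ H := hM8.trans hHl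
  have hH1 : 1 ≤ H := by exact_mod_cast hHR
  have hHu : (H : ℝ) ≤ 2 * (M : ℝ) ^ (2 * κ) := by
    have := Nat.ceil_lt_add_one (show 0 ≤ (M : ℝ) ^ (2 * κ) by positivity)
    have h2 : (H : ℝ) < (M : ℝ) ^ (2 * κ) + 1 := this
    linarith
  have hHu8 : (H : ℝ) ≤ 2 * (M : ℝ) ^ (1 / 8 : ℝ) := by
    refine hHu.trans ?_
    apply mul_le_mul_of_nonneg_left _ (by norm_num)
    apply Real.rpow_le_rpow_of_exponent_le hMR
    linarith
  have hHM : 1 ≤ H * M ^ n := Nat.mul_pos hH1 (Nat.pow_pos (by omega))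
  have hHMR : (1 : ℝ) ≤ H * (M : ℝ) ^ n := by exact_mod_cast hHM
  intro x hx Ω hΩ s t hs hst ht
  set η : ℝ := 1 / (c * ((H * M ^ n + 1 : ℕ) : ℝ)) with hη
  have hHM1 : (1 : ℝ) ≤ ((H * M ^ n + 1 : ℕ) : ℝ) := by
    push_cast
    linarith
  have hη0 : 0 < η := by positivity
  have hinv : 1 / η = c * ((H * M ^ n + 1 : ℕ) : ℝ) := by rw [hη, one_div_one_div]
  have hη1 : η ≤ 1 := by
    rw [hη, div_le_one (by positivity)]
    nlinarith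
  have hinv1 : 1 ≤ 1 / η := by rw [hinv]; nlinarith
  set E : ℝ := 4 * c * (M : ℝ) ^ (n + 1 / 8 : ℝ) with hE
  have hE0 : 0 < E := by positivity
  have hinvE : 1 / η ≤ E := by
    rw [hinv, hE]
    have h1 : (M : ℝ) ^ (n + 1 / 8 : ℝ) = (M : ℝ) ^ n * (M : ℝ) ^ (1 / 8 : ℝ) := by
      rw [Real.rpow_add hM0, Real.rpow_natCast]
    rw [h1]
    push_cast
    calc c * ((H : ℝ) * (M : ℝ) ^ n + 1) ≤ c * (2 * (H * (M : ℝ) ^ n)) := by
          gcongr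
          linarith
      _ ≤ c * (2 * ((2 * (M : ℝ) ^ (1 / 8 : ℝ)) * (M : ℝ) ^ n)) := by gcongr
      _ = _ := by ring
  have hlogE : 1 + Real.log E ≤ (c0 + 8 * (n + 1)) * (M : ℝ) ^ (1 / 8 : ℝ) := by
    have h1 : Real.log E = Real.log (4 * c) + (n + 1 / 8) * Real.log M := by
      rw [hE, Real.log_mul (by positivity) (by positivity), Real.log_rpow hM0]
    have h2 : Real.log M ≤ (M : ℝ) ^ (1 / 8 : ℝ) / (1 / 8) :=
      Real.log_le_rpow_div hM0.le (by positivity)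
    have h3 : 0 ≤ Real.log (M : ℝ) := Real.log_nonneg hMR
    have h4 : (n + 1 / 8 : ℝ) * Real.log M ≤ (n + 1) * Real.log M := by
      apply mul_le_mul_of_nonneg_right _ h3
      linarith
    have h5 : ((n : ℝ) + 1) * Real.log M ≤ 8 * (n + 1) * (M : ℝ) ^ (1 / 8 : ℝ) := by
      calc ((n : ℝ) + 1) * Real.log M ≤ (n + 1) * ((M : ℝ) ^ (1 / 8 : ℝ) / (1 / 8)) := by gcongr
        _ = _ := by ring
    have h7 : (1 : ℝ) ≤ (M : ℝ) ^ (1 / 8 : ℝ) := Real.one_le_rpow hMR (by norm_num)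
    have h6 : c0 ≤ c0 * (M : ℝ) ^ (1 / 8 : ℝ) := by nlinarith
    rw [h1]
    calc 1 + (Real.log (4 * c) + (n + 1 / 8) * Real.log M)
        = c0 + (n + 1 / 8) * Real.log M := by rw [hc0]; ring
      _ ≤ c0 * (M : ℝ) ^ (1 / 8 : ℝ) + 8 * (n + 1) * (M : ℝ) ^ (1 / 8 : ℝ) := by linarith
      _ = (c0 + 8 * (n + 1)) * (M : ℝ) ^ (1 / 8 : ℝ) := by ring
  have hLb : 1 / η * (1 + Real.log (1 / η)) ≤ C2 * (M : ℝ) ^ (n + 1 / 4 : ℝ) := by
    have h1 : Real.log (1 / η) ≤ Real.log E := Real.log_le_log (by positivity) hinvE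
    have h0 : 0 ≤ Real.log (1 / η) := Real.log_nonneg hinv1
    have h2 : 1 / η * (1 + Real.log (1 / η)) ≤
        E * ((c0 + 8 * (n + 1)) * (M : ℝ) ^ (1 / 8 : ℝ)) := by
      apply mul_le_mul hinvE (by linarith) (by linarith) hE0.le
    refine h2.trans (le_of_eq ?_)
    have : (M : ℝ) ^ (n + 1 / 4 : ℝ) = (M : ℝ) ^ (n + 1 / 8 : ℝ) * (M : ℝ) ^ (1 / 8 : ℝ) := by
      rw [← Real.rpow_add hM0]
      congr 1
      ring
    rw [this, hE, hC2]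
    ring
  have hS : ∀ h : ℕ, 1 ≤ h → h ≤ H →
      ‖∑ a ∈ pts M Ω, e (h * val γ x a)‖ ≤
        C3 * ((M : ℝ) ^ (n + 1) * (M : ℝ) ^ (-(8 * κ))) := by
    intro h hh1 hh2
    rw [pts_sum]
    have h1 := hlin M hM (h * γ)
      (fun j a => if Ω j a then e (h * x j a) else 0)
      (fun j a => by
        split_ifs
        · exact (norm_e _).le
        · simp)
      (fun j a a' haa => by
        beta_reduce
        rw [hΩ j a a' haa, hx j a a' haa])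
    have h2 := sum_good M (H * M ^ n + 1) (M ^ n) γ η hη0 hη1 hgood h hh1
      (Nat.lt_succ_of_le (Nat.mul_le_mul_right _ hh2))
    have h3 : (M : ℝ) ^ (1 / 4 - n - 1 : ℝ) *
        ∑ m ∈ Icc 1 (M ^ n), G M ((m : ℝ) * (h * γ)) + (M : ℝ) ^ (-1 : ℝ) ≤
        (8 * C2 + 1) * (M : ℝ) ^ (-(1 / 2) : ℝ) := by
      have h4 : (M : ℝ) ^ (1 / 4 - n - 1 : ℝ) *
          ∑ m ∈ Icc 1 (M ^ n), G M ((m : ℝ) * (h * γ)) ≤
          8 * C2 * (M : ℝ) ^ (-(1 / 2) : ℝ) := by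
        calc (M : ℝ) ^ (1 / 4 - n - 1 : ℝ) *
            ∑ m ∈ Icc 1 (M ^ n), G M ((m : ℝ) * (h * γ))
            ≤ (M : ℝ) ^ (1 / 4 - n - 1 : ℝ) * (8 * (C2 * (M : ℝ) ^ (n + 1 / 4 : ℝ))) := by
              gcongr
              exact h2.trans (by gcongr)
          _ = 8 * C2 * ((M : ℝ) ^ (1 / 4 - n - 1 : ℝ) * (M : ℝ) ^ (n + 1 / 4 : ℝ)) := by ring
          _ = _ := by
              rw [← Real.rpow_add hM0]
              congr 2
              ring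
      have h5 : (M : ℝ) ^ (-1 : ℝ) ≤ (M : ℝ) ^ (-(1 / 2) : ℝ) :=
        Real.rpow_le_rpow_of_exponent_le hMR (by norm_num)
      linarith
    have h6 := h1.trans (mul_le_mul_of_nonneg_left h3 (by positivity))
    refine (pow_le_pow_iff_left₀ (norm_nonneg _) (by positivity) (pow_ne_zero n two_ne_zero)).1
      (h6.trans ?_)
    rw [mul_pow, mul_pow]
    have e3 : ((M : ℝ) ^ (-(8 * κ))) ^ 2 ^ n = (M : ℝ) ^ (-(1 / 2) : ℝ) := by
      rw [← Real.rpow_natCast, ← Real.rpow_mul hM0.le]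
      congr 1
      rw [hκ]
      push_cast
      have : (2 : ℝ) ^ (n + 4) = 16 * 2 ^ n := by ring
      rw [this]
      field_simp
      norm_num
    rw [e3]
    have h7 : C1 * (8 * C2 + 1) ≤ C3 ^ 2 ^ n := by
      refine hC32.trans ?_
      exact le_self_pow₀ hC31 (pow_ne_zero n two_ne_zero)
    calc C1 * ((M : ℝ) ^ (n + 1)) ^ 2 ^ n * ((8 * C2 + 1) * (M : ℝ) ^ (-(1 / 2) : ℝ))
        = C1 * (8 * C2 + 1) * (((M : ℝ) ^ (n + 1)) ^ 2 ^ n * (M : ℝ) ^ (-(1 / 2) : ℝ)) := by ring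
      _ ≤ _ := by gcongr
  have hd := disc_fam (pts M Ω) (fun a => val γ x a) H hH1 _ hS s t hs hst ht
  refine hd.trans ?_
  have hcard : ((pts M Ω).card : ℝ) ≤ (M : ℝ) ^ (n + 1) := by
    have h1 : (pts M Ω).card ≤ (cube (n + 1) M).card := card_filter_le _ _
    rw [card_cube] at h1
    exact_mod_cast h1
  have hlogH : 1 + Real.log H ≤ 4 * (M : ℝ) ^ κ := by
    have h1 : Real.log H ≤ Real.log (2 * (M : ℝ) ^ (2 * κ)) :=
      Real.log_le_log (by exact_mod_cast hH1) hHu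
    rw [Real.log_mul (by norm_num) (by positivity), Real.log_rpow hM0] at h1
    have h2 : Real.log M ≤ (M : ℝ) ^ κ / κ := Real.log_le_rpow_div hM0.le (by positivity)
    have h3 : 2 * κ * Real.log M ≤ 2 * (M : ℝ) ^ κ := by
      have h4 : 2 * κ * Real.log M ≤ 2 * κ * ((M : ℝ) ^ κ / κ) := by gcongr
      have h5 : 2 * κ * ((M : ℝ) ^ κ / κ) = 2 * (M : ℝ) ^ κ := by
        field_simp
      linarith
    have h4 := Real.log_two_lt_d9
    have h5 : (1 : ℝ) ≤ (M : ℝ) ^ κ := Real.one_le_rpow hMR (by positivity)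
    linarith
  have hsq : (M : ℝ) ^ κ ≤ Real.sqrt H := by
    rw [show (M : ℝ) ^ κ = Real.sqrt ((M : ℝ) ^ (2 * κ)) by
      rw [Real.sqrt_eq_rpow, ← Real.rpow_mul hM0.le]
      congr 1
      ring]
    exact Real.sqrt_le_sqrt hHl
  have hpos16 : (0 : ℝ) < (M : ℝ) ^ κ := by positivity
  have hMn : (0 : ℝ) < (M : ℝ) ^ (n + 1) := by positivity
  have h1 : C3 * ((M : ℝ) ^ (n + 1) * (M : ℝ) ^ (-(8 * κ))) * (1 + Real.log H) ≤
      4 * C3 * ((M : ℝ) ^ (-κ) * (M : ℝ) ^ (n + 1)) := by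
    have h2 : (M : ℝ) ^ (-(8 * κ)) * (M : ℝ) ^ κ ≤ (M : ℝ) ^ (-κ) := by
      rw [← Real.rpow_add hM0]
      apply Real.rpow_le_rpow_of_exponent_le hMR
      linarith
    calc C3 * ((M : ℝ) ^ (n + 1) * (M : ℝ) ^ (-(8 * κ))) * (1 + Real.log H)
        ≤ C3 * ((M : ℝ) ^ (n + 1) * (M : ℝ) ^ (-(8 * κ))) * (4 * (M : ℝ) ^ κ) := by gcongr
      _ = 4 * C3 * ((M : ℝ) ^ (-(8 * κ)) * (M : ℝ) ^ κ * (M : ℝ) ^ (n + 1)) := by ring
      _ ≤ 4 * C3 * ((M : ℝ) ^ (-κ) * (M : ℝ) ^ (n + 1)) := by gcongr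
  have h2 : ((pts M Ω).card : ℝ) / Real.sqrt H ≤ (M : ℝ) ^ (-κ) * (M : ℝ) ^ (n + 1) := by
    rw [Real.rpow_neg hM0.le, mul_comm, ← div_eq_mul_inv]
    gcongr
  calc 2 * (C3 * ((M : ℝ) ^ (n + 1) * (M : ℝ) ^ (-(8 * κ))) * (1 + Real.log H) +
        2 * (((pts M Ω).card : ℝ) / Real.sqrt H))
      ≤ 2 * (4 * C3 * ((M : ℝ) ^ (-κ) * (M : ℝ) ^ (n + 1)) +
        2 * ((M : ℝ) ^ (-κ) * (M : ℝ) ^ (n + 1))) := by gcongr
    _ = 2 * (4 * C3 + 2) * (M : ℝ) ^ (-κ) * (M : ℝ) ^ (n + 1) := by ring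

/-- **Good times for multilinear families.** -/
theorem placeM (p q : ℕ) (hq : 2 ≤ q) (hqp : q < p) (hco : Nat.Coprime p q) (n : ℕ) :
    ∃ C : ℝ, 0 < C ∧ ∀ ξ : ℝ, ξ ≠ 0 → ∀ M : ℕ, 1 ≤ M → ∀ t0 : ℕ, ∃ t, t0 ≤ t ∧
      ∀ x : Fin (n + 1) → (Fin (n + 1) → ℕ) → ℝ, (∀ j, Free j (x j)) →
      ∀ Ω : Fin (n + 1) → (Fin (n + 1) → ℕ) → Prop, (∀ j, Free j (Ω j)) →
      ∀ a b : ℝ, 0 ≤ a → a < b → b ≤ 1 →
      |(((pts M Ω).filter (fun u => a ≤ Int.fract (val ξ x u * ((p : ℝ) / q) ^ t) ∧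
          Int.fract (val ξ x u * ((p : ℝ) / q) ^ t) < b)).card : ℝ) - (b - a) * (pts M Ω).card| ≤
        C * (M : ℝ) ^ (-(1 / 2 ^ (n + 4) : ℝ)) * (M : ℝ) ^ (n + 1) := by
  obtain ⟨C, hC, hmain⟩ := at_goodM ((p : ℝ) + q) (by
    have : (2 : ℝ) ≤ q := by exact_mod_cast hq
    have : (0 : ℝ) ≤ p := by positivity
    linarith) n
  refine ⟨C, hC, fun ξ hξ M hM t0 => ?_⟩
  obtain ⟨t, ht, hgood⟩ := Pool.Agent.R544.PQ.exists_good p q hq hqp hco ξ hξ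
    (fr (2 * (1 / 2 ^ (n + 4))) M * M ^ n + 1) (by omega) t0
  refine ⟨t, ht, fun x hx Ω hΩ a b ha hab hb => ?_⟩
  have h1 := hmain M hM (ξ * ((p : ℝ) / q) ^ t) hgood
    (fun j u => x j u * ((p : ℝ) / q) ^ t) (fun j u u' huu => by
      beta_reduce
      rw [hx j u u' huu]) Ω hΩ a b ha hab hb
  have h2 : ∀ u, val (ξ * ((p : ℝ) / q) ^ t) (fun j u => x j u * ((p : ℝ) / q) ^ t) u =
      val ξ x u * ((p : ℝ) / q) ^ t := by
    intro u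
    unfold Pool.Agent.Run7.h566.ML.val
    rw [add_mul, sum_mul]
    ring
  simp only [h2] at h1
  exact h1

end Pool.Agent.Run7.h566.PQ
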