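import Mathlib
import Pool.Agent.Run7.h566.PQ.Few
import Pool.Agent.Run7.h566.PQ.PlaceM
import Pool.Agent.R544.PQ.Conf

/-! Bilinear and multilinear families: fractional parts of powers and the automaton. -/

set_option autoImplicit false

open Finset
open scoped Classical

namespace Pool.Agent.Run7.h566.PQ

open Pool.Agent.Run7.h566.ML (val pts cube card_cube Free)
open Pool.Agent.H429R2.Auto
open Pool.Agent.R544.PQ (conf Shows code code_lt shows_of_hit)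

/-- the times at which `z (p/q)^t` is modulo one in the interval of the length `2 q ^ (-h)` -/
def hits (p q h : ℕ) (a z : ℝ) : Set ℕ :=
  {t : ℕ | a ≤ fv p q z t ∧ fv p q z t < a + 2 / (q : ℝ) ^ h}

theorem bil_int (p q : ℕ) (hq : 2 ≤ q) (hqp : q < p) (hco : Nat.Coprime p q) (h : ℕ) (hh : 1 ≤ h)
    (δ : ℝ) (hδ : 0 < δ) (hδ1 : δ ≤ 1) :
    ∃ c C : ℝ, 0 < c ∧ 0 < C ∧ ∀ ξ : ℝ, ξ ≠ 0 → ∀ M : ℕ, 1 ≤ M →
      ∀ A B : Finset ℕ, A ⊆ range M → B ⊆ range M →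
      (M : ℝ) ^ (1 + δ) ≤ (A.card : ℝ) * B.card → ∀ x y : ℕ → ℝ, ∀ a : ℝ, 0 ≤ a →
      a + 2 / (q : ℝ) ^ h ≤ 1 →
      (((A ×ˢ B).filter fun z : ℕ × ℕ =>
        (hits p q h a ((z.1 * z.2 : ℝ) * ξ + x z.1 + y z.2)).Finite).card : ℝ) ≤
        C * (M : ℝ) ^ (-c) * ((A.card : ℝ) * B.card) := by
  obtain ⟨D, hD, hpl⟩ := place p q hq hqp hco δ hδ hδ1
  obtain ⟨c, C, hc, hC, hfew⟩ := few_all p q hq hqp hco h hh (δ / 16) (by positivity)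
  refine ⟨c, C * (1 + D), hc, by positivity, fun ξ hξ M hM A B hA hB hcard x y a ha ha1 => ?_⟩
  have hq0 : (0 : ℝ) < q := by
    have : (2 : ℝ) ≤ q := by exact_mod_cast hq
    linarith
  refine hfew (ℕ × ℕ) M hM (A ×ˢ B) (fun z => (z.1 * z.2 : ℝ) * ξ + x z.1 + y z.2)
    ((A.card : ℝ) * B.card) D (by positivity) hD.le ?_ a ha ha1
  intro T t0
  obtain ⟨t, ht, htt⟩ := hpl (ξ / (q : ℝ) ^ T) (div_ne_zero hξ (by positivity)) M hM t0
  refine ⟨t, ht, fun s b hs hsb hb => ?_⟩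
  have h1 := htt A B hA hB hcard (fun m => x m / (q : ℝ) ^ T) (fun m => y m / (q : ℝ) ^ T) s b hs hsb hb
  have h2 : ∀ z : ℕ × ℕ, Int.fract (((z.1 * z.2 : ℝ) * (ξ / (q : ℝ) ^ T) + x z.1 / (q : ℝ) ^ T +
      y z.2 / (q : ℝ) ^ T) * ((p : ℝ) / q) ^ t) =
      fv p q (((z.1 * z.2 : ℝ) * ξ + x z.1 + y z.2) / (q : ℝ) ^ T) t := by
    intro z
    unfold fv
    congr 2
    ring
  simp only [h2] at h1
  have h3 := (abs_le.1 h1).2
  calc _ ≤ (b - s) * ((A.card : ℝ) * B.card) + D * (M : ℝ) ^ (-(δ / 16)) * ((A.card : ℝ) * B.card) := by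
        linarith
    _ = _ := by ring

lemma pts_all {n : ℕ} (M : ℕ) (Ω : Fin n → (Fin n → ℕ) → Prop) (h : ∀ j a, Ω j a) :
    pts M Ω = cube n M := by
  unfold pts
  ext u
  rw [mem_filter]
  exact ⟨fun h' => h'.1, fun h' => ⟨h', fun j => h j u⟩⟩

theorem multi_int (p q : ℕ) (hq : 2 ≤ q) (hqp : q < p) (hco : Nat.Coprime p q) (h : ℕ) (hh : 1 ≤ h)
    (n : ℕ) :
    ∃ c C : ℝ, 0 < c ∧ 0 < C ∧ ∀ ξ : ℝ, ξ ≠ 0 → ∀ M : ℕ, 1 ≤ M →
      ∀ x : Fin (n + 1) → (Fin (n + 1) → ℕ) → ℝ, (∀ j, Free j (x j)) → ∀ a : ℝ, 0 ≤ a →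
      a + 2 / (q : ℝ) ^ h ≤ 1 →
      (((cube (n + 1) M).filter fun u => (hits p q h a (val ξ x u)).Finite).card : ℝ) ≤
        C * (M : ℝ) ^ (-c) * (M : ℝ) ^ (n + 1) := by
  obtain ⟨D, hD, hpl⟩ := placeM p q hq hqp hco n
  obtain ⟨c, C, hc, hC, hfew⟩ := few_all p q hq hqp hco h hh (1 / 2 ^ (n + 4)) (by positivity)
  refine ⟨c, C * (1 + D), hc, by positivity, fun ξ hξ M hM x hx a ha ha1 => ?_⟩
  have hq0 : (0 : ℝ) < q := by
    have : (2 : ℝ) ≤ q := by exact_mod_cast hq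
    linarith
  have hpts : pts M (fun (_ : Fin (n + 1)) _ => True) = cube (n + 1) M :=
    pts_all M _ fun _ _ => trivial
  refine hfew (Fin (n + 1) → ℕ) M hM (cube (n + 1) M) (fun u => val ξ x u)
    ((M : ℝ) ^ (n + 1)) D (by positivity) hD.le ?_ a ha ha1
  intro T t0
  obtain ⟨t, ht, htt⟩ := hpl (ξ / (q : ℝ) ^ T) (div_ne_zero hξ (by positivity)) M hM t0
  refine ⟨t, ht, fun s b hs hsb hb => ?_⟩
  have h1 := htt (fun j u => x j u / (q : ℝ) ^ T) (fun j u u' huu => by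
      beta_reduce
      rw [hx j u u' huu]) (fun _ _ => True) (fun _ _ _ _ => rfl) s b hs hsb hb
  rw [hpts] at h1
  have h2 : ∀ u, Int.fract (val (ξ / (q : ℝ) ^ T) (fun j u => x j u / (q : ℝ) ^ T) u *
      ((p : ℝ) / q) ^ t) = fv p q (val ξ x u / (q : ℝ) ^ T) t := by
    intro u
    unfold fv
    congr 2
    unfold Pool.Agent.Run7.h566.ML.val
    rw [add_div, sum_div]
    ring
  simp only [h2] at h1
  have h3 := (abs_le.1 h1).2
  have hcc : ((cube (n + 1) M).card : ℝ) = (M : ℝ) ^ (n + 1) := by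
    rw [card_cube]
    push_cast
    rfl
  rw [hcc] at h3
  calc _ ≤ (b - s) * (M : ℝ) ^ (n + 1) + D * (M : ℝ) ^ (-(1 / 2 ^ (n + 4) : ℝ)) * (M : ℝ) ^ (n + 1) := by
        linarith
    _ = _ := by ring

/-- from intervals to words at positions -/
theorem auto {ι : Type} (L : ℕ) (S : Finset ι) (z : ι → ℝ) (hz : ∀ i ∈ S, 0 ≤ z i) (E : ℝ)
    (hE : ∀ j : ℤ, ∀ a : ℝ, 0 ≤ a → a + 2 / ((2 : ℕ) : ℝ) ^ (3 * L + 1) ≤ 1 →
      ((S.filter fun i => (hits 3 2 (3 * L + 1) a ((6 : ℝ) ^ (j - 1) * z i)).Finite).card : ℝ) ≤ E)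
    (J : ℕ) :
    ((S.filter fun i => ¬ ∀ j : ℤ, |j| ≤ J → ∀ w : Fin L → Fin 6,
      {t : ℕ | Shows (F^[t] (conf (z i))) w j}.Infinite).card : ℝ) ≤ (2 * J + 1) * 6 ^ L * E := by
  have key : ∀ (j : ℤ) (w : Fin L → Fin 6),
      ((S.filter fun i => {t : ℕ | Shows (F^[t] (conf (z i))) w j}.Finite).card : ℝ) ≤ E := by
    intro j w
    have hclR : (code w : ℝ) + 1 ≤ 6 ^ L := by exact_mod_cast code_lt w
    have h6 : (0 : ℝ) < 6 ^ L := by positivity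
    have hwid : (2 : ℝ) / ((2 : ℕ) : ℝ) ^ (3 * L + 1) ≤ 1 / 6 ^ L := by
      rw [div_le_div_iff₀ (by positivity) h6, pow_succ, pow_mul]
      have : (6 : ℝ) ^ L ≤ (((2 : ℕ) : ℝ) ^ 3) ^ L := pow_le_pow_left₀ (by norm_num) (by norm_num) L
      push_cast at this ⊢
      linarith
    have ha1 : (code w : ℝ) / 6 ^ L + 2 / ((2 : ℕ) : ℝ) ^ (3 * L + 1) ≤ 1 := by
      have : (code w : ℝ) / 6 ^ L + 1 / 6 ^ L ≤ 1 := by
        rw [← add_div, div_le_one h6]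
        exact hclR
      linarith
    refine le_trans (Nat.cast_le.2 (card_le_card fun i hi => ?_))
      (hE j ((code w : ℝ) / 6 ^ L) (by positivity) ha1)
    rw [mem_filter] at hi ⊢
    refine ⟨hi.1, hi.2.subset fun t ht => ?_⟩
    obtain ⟨ht1, ht2⟩ := ht
    have e : (6 : ℝ) ^ (j - 1) * z i * (((3 : ℕ) : ℝ) / ((2 : ℕ) : ℝ)) ^ t =
        (6 : ℝ) ^ (j - 1) * ((3 / 2) ^ t * z i) := by
      push_cast
      ring
    unfold fv at ht1 ht2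
    rw [e] at ht1 ht2
    refine shows_of_hit w (z i) (hz i hi.1) j t ht1 (ht2.trans_le ?_)
    rw [add_div]
    linarith
  set I : Finset (ℤ × (Fin L → Fin 6)) := (Finset.Icc (-(J : ℤ)) J) ×ˢ Finset.univ with hI
  have hsub : (S.filter fun i => ¬ ∀ j : ℤ, |j| ≤ J → ∀ w : Fin L → Fin 6,
      {t : ℕ | Shows (F^[t] (conf (z i))) w j}.Infinite) ⊆
      I.biUnion fun u => S.filter fun i => {t : ℕ | Shows (F^[t] (conf (z i))) u.2 u.1}.Finite := by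
    intro i hi
    rw [mem_filter] at hi
    obtain ⟨hi1, hi2⟩ := hi
    push Not at hi2
    obtain ⟨j, hj, w, hw⟩ := hi2
    rw [mem_biUnion]
    refine ⟨(j, w), ?_, ?_⟩
    · rw [hI, mem_product, mem_Icc]
      rw [abs_le] at hj
      exact ⟨hj, mem_univ _⟩
    · rw [mem_filter]
      exact ⟨hi1, hw⟩
  have h1 : ((S.filter fun i => ¬ ∀ j : ℤ, |j| ≤ J → ∀ w : Fin L → Fin 6,
      {t : ℕ | Shows (F^[t] (conf (z i))) w j}.Infinite).card : ℝ) ≤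
      ∑ u ∈ I, ((S.filter fun i => {t : ℕ | Shows (F^[t] (conf (z i))) u.2 u.1}.Finite).card : ℝ) := by
    exact_mod_cast (card_le_card hsub).trans card_biUnion_le
  refine h1.trans ((sum_le_card_nsmul I _ _ fun u _ => key u.1 u.2).trans (le_of_eq ?_))
  have hcard : (I.card : ℝ) = (2 * J + 1) * 6 ^ L := by
    rw [hI, card_product, Int.card_Icc, card_univ, Fintype.card_fun, Fintype.card_fin,
      Fintype.card_fin]
    have : ((J : ℤ) + 1 - -(J : ℤ)).toNat = 2 * J + 1 := by omega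
    rw [this]
    push_cast
    ring
  rw [nsmul_eq_mul, hcard]

/-- the growing window of positions -/
theorem auto_window {ι : Type} (L : ℕ) (c C : ℝ) (hc : 0 < c) (M : ℕ) (hM : 1 ≤ M) (P : ℝ)
    (hP : 0 ≤ P) (hC : 0 ≤ C) (S : Finset ι) (z : ι → ℝ) (hz : ∀ i ∈ S, 0 ≤ z i)
    (hE : ∀ j : ℤ, ∀ a : ℝ, 0 ≤ a → a + 2 / ((2 : ℕ) : ℝ) ^ (3 * L + 1) ≤ 1 →
      ((S.filter fun i => (hits 3 2 (3 * L + 1) a ((6 : ℝ) ^ (j - 1) * z i)).Finite).card : ℝ) ≤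
        C * (M : ℝ) ^ (-c) * P) :
    ((S.filter fun i => ¬ ∀ j : ℤ, (|j| : ℝ) ≤ (M : ℝ) ^ (c / 2) → ∀ w : Fin L → Fin 6,
      {t : ℕ | Shows (F^[t] (conf (z i))) w j}.Infinite).card : ℝ) ≤
      3 * 6 ^ L * C * (M : ℝ) ^ (-(c / 2)) * P := by
  have hMR : (1 : ℝ) ≤ M := by exact_mod_cast hM
  have hM0 : (0 : ℝ) < M := by linarith
  set J : ℕ := ⌊(M : ℝ) ^ (c / 2)⌋₊ with hJ
  have h1M : (1 : ℝ) ≤ (M : ℝ) ^ (c / 2) := Real.one_le_rpow hMR (by linarith)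
  have hJle : (J : ℝ) ≤ (M : ℝ) ^ (c / 2) := Nat.floor_le (by positivity)
  have h1 := auto L S z hz _ hE J
  have hsub : (S.filter fun i => ¬ ∀ j : ℤ, (|j| : ℝ) ≤ (M : ℝ) ^ (c / 2) → ∀ w : Fin L → Fin 6,
      {t : ℕ | Shows (F^[t] (conf (z i))) w j}.Infinite) ⊆
      S.filter fun i => ¬ ∀ j : ℤ, |j| ≤ J → ∀ w : Fin L → Fin 6,
      {t : ℕ | Shows (F^[t] (conf (z i))) w j}.Infinite := by
    intro i hi
    rw [mem_filter] at hi ⊢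
    refine ⟨hi.1, fun hall => hi.2 fun j hj => hall j ?_⟩
    rw [← Int.cast_abs] at hj
    obtain ⟨n, hn⟩ : ∃ n : ℕ, |j| = n := ⟨j.natAbs, Int.abs_eq_natAbs j⟩
    rw [hn] at hj ⊢
    rw [Int.cast_natCast] at hj
    exact_mod_cast Nat.le_floor hj
  refine (Nat.cast_le.2 (card_le_card hsub)).trans (h1.trans ?_)
  have h3 : (2 * (J : ℝ) + 1) ≤ 3 * (M : ℝ) ^ (c / 2) := by linarith
  have h4 : (M : ℝ) ^ (c / 2) * (M : ℝ) ^ (-c) = (M : ℝ) ^ (-(c / 2)) := by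
    rw [← Real.rpow_add hM0]
    congr 1
    ring
  calc (2 * (J : ℝ) + 1) * 6 ^ L * (C * (M : ℝ) ^ (-c) * P)
      ≤ (3 * (M : ℝ) ^ (c / 2)) * 6 ^ L * (C * (M : ℝ) ^ (-c) * P) := by gcongr
    _ = 3 * 6 ^ L * C * ((M : ℝ) ^ (c / 2) * (M : ℝ) ^ (-c)) * P := by ring
    _ = _ := by rw [h4]

end Pool.Agent.Run7.h566.PQ
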